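import Pool.Agent.Q255.L2.StmV

/-! Project L2 of helper255: number of tuples with bounded product, square products. -/

set_option autoImplicit false

namespace Pool.Agent.Q193.L2

open Finset

theorem tup : Q255.L2.S_TUP := by
  intro M _ _ η hη
  have hs : Summable fun n : ℕ => 1 / (n : ℝ) ^ (1 + η) :=
    Real.summable_one_div_nat_rpow.2 (by linarith)
  obtain ⟨Z, hZ⟩ : ∃ Z, Z = 1 + ∑' n : ℕ, 1 / (n : ℝ) ^ (1 + η) := ⟨_, rfl⟩
  have ht0 : 0 ≤ ∑' n : ℕ, 1 / (n : ℝ) ^ (1 + η) := tsum_nonneg fun n => by positivity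
  have hZ0 : 0 < Z := by linarith
  refine ⟨Z ^ Fintype.card M, by positivity, ?_⟩
  intro Y B hY
  have hY0 : 0 < Y := by linarith
  have h1 : ∀ a ∈ (Fintype.piFinset fun _ : M => Icc 1 B).filter fun a =>
      ((∏ j, a j : ℕ) : ℝ) ≤ Y, (1 : ℝ) ≤ Y ^ (1 + η) * ∏ j, 1 / ((a j : ℕ) : ℝ) ^ (1 + η) := by
    intro a ha
    rw [mem_filter, Fintype.mem_piFinset] at ha
    obtain ⟨ha1, ha2⟩ := ha
    have ha3 : ∀ j, (0 : ℝ) < ((a j : ℕ) : ℝ) := by
      intro j
      have := (mem_Icc.1 (ha1 j)).1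
      exact_mod_cast this
    have e1 : ∏ j, 1 / ((a j : ℕ) : ℝ) ^ (1 + η) = 1 / (∏ j, ((a j : ℕ) : ℝ)) ^ (1 + η) := by
      rw [prod_div_distrib, prod_const_one, Real.finsetProd_rpow _ _ fun j _ => (ha3 j).le]
    have hP : 0 < ∏ j, ((a j : ℕ) : ℝ) := prod_pos fun j _ => ha3 j
    push_cast at ha2
    rw [e1, mul_one_div, ← Real.div_rpow hY0.le hP.le]
    exact Real.one_le_rpow ((one_le_div hP).2 ha2) (by linarith)
  calc ((((Fintype.piFinset fun _ : M => Icc 1 B).filter fun a =>
        ((∏ j, a j : ℕ) : ℝ) ≤ Y).card : ℕ) : ℝ)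
      = ∑ a ∈ (Fintype.piFinset fun _ : M => Icc 1 B).filter fun a =>
          ((∏ j, a j : ℕ) : ℝ) ≤ Y, (1 : ℝ) := by
        rw [sum_const, nsmul_eq_mul, mul_one]
    _ ≤ ∑ a ∈ (Fintype.piFinset fun _ : M => Icc 1 B).filter fun a =>
          ((∏ j, a j : ℕ) : ℝ) ≤ Y, Y ^ (1 + η) * ∏ j, 1 / ((a j : ℕ) : ℝ) ^ (1 + η) :=
        sum_le_sum h1
    _ ≤ ∑ a ∈ Fintype.piFinset fun _ : M => Icc 1 B,
          Y ^ (1 + η) * ∏ j, 1 / ((a j : ℕ) : ℝ) ^ (1 + η) :=
        sum_le_sum_of_subset_of_nonneg (filter_subset _ _) fun a _ _ => by positivity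
    _ = Y ^ (1 + η) * ∏ _j : M, ∑ b ∈ Icc 1 B, 1 / ((b : ℕ) : ℝ) ^ (1 + η) := by
        rw [← mul_sum, prod_univ_sum]
    _ ≤ Y ^ (1 + η) * Z ^ Fintype.card M := by
        refine mul_le_mul_of_nonneg_left ?_ (by positivity)
        rw [prod_const, card_univ]
        refine pow_le_pow_left₀ (sum_nonneg fun b _ => by positivity) ?_ _
        have := hs.sum_le_tsum (Icc 1 B) fun b _ => by positivity
        linarith
    _ = Z ^ Fintype.card M * Y ^ (1 + η) := mul_comm _ _

theorem fac_sf {s p : ℕ} (hs : Squarefree s) (hp : p.Prime) :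
    s.factorization p = if p ∣ s then 1 else 0 := by
  split_ifs with h
  · have h1 := hs.natFactorization_le_one p
    have h2 := hp.factorization_pos_of_dvd hs.ne_zero h
    omega
  · exact Nat.factorization_eq_zero_of_not_dvd h

theorem par : Q255.L2.S_PAR := by
  intro ι _ _ n hn hsq
  have hex : ∀ i, ∃ s r : ℕ, r ^ 2 * s = n i ∧ Squarefree s := fun i => Nat.sq_mul_squarefree (n i)
  choose s r hrs hsf using hex
  have hs0 : ∀ i, s i ≠ 0 := fun i => (hsf i).ne_zero
  have hr0 : ∀ i, r i ≠ 0 := by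
    intro i h
    have h1 := hrs i
    rw [h] at h1
    have := hn i
    simp at h1
    omega
  obtain ⟨P, hP⟩ : ∃ P : Finset ℕ, P = (∏ i, s i).primeFactors := ⟨_, rfl⟩
  obtain ⟨T, hT⟩ : ∃ T : ℕ → Finset ι, T = fun p => univ.filter fun i => p ∣ s i := ⟨_, rfl⟩
  have hTm : ∀ p i, i ∈ T p ↔ p ∣ s i := by
    intro p i
    rw [hT]
    simp
  have hPr : ∀ p ∈ P, p.Prime := by
    intro p hp
    rw [hP] at hp
    exact Nat.prime_of_mem_primeFactors hp
  have hprod0 : ∏ i, s i ≠ 0 := prod_ne_zero_iff.2 fun i _ => hs0 i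
  refine ⟨r, fun S => ∏ p ∈ P.filter fun p => T p = S, p, fun i => Nat.pos_of_ne_zero (hr0 i),
    fun S => Nat.pos_of_ne_zero (prod_ne_zero_iff.2 fun p hp =>
      (hPr p (mem_filter.1 hp).1).ne_zero), ?_, ?_⟩
  · intro i
    rw [← hrs i]
    congr 1
    have e1 : (s i).primeFactors = P.filter fun p => i ∈ T p := by
      ext p
      rw [mem_filter, hTm, hP, Nat.mem_primeFactors, Nat.mem_primeFactors]
      constructor
      · rintro ⟨h1, h2, -⟩
        exact ⟨⟨h1, h2.trans (dvd_prod_of_mem s (mem_univ i)), hprod0⟩, h2⟩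
      · rintro ⟨⟨h1, -, -⟩, h2⟩
        exact ⟨h1, h2, hs0 i⟩
    have e2 : ∀ S ∈ univ.filter (fun S : Finset ι => i ∈ S),
        ∏ p ∈ P.filter fun p => T p = S, p =
          ∏ p ∈ (P.filter fun p => i ∈ T p).filter fun p => T p = S, p := by
      intro S hS
      rw [filter_filter]
      refine prod_congr ?_ fun _ _ => rfl
      ext p
      rw [mem_filter, mem_filter]
      constructor
      · rintro ⟨h1, h2⟩
        refine ⟨h1, ?_, h2⟩
        rw [h2]
        exact (mem_filter.1 hS).2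
      · rintro ⟨h1, -, h2⟩
        exact ⟨h1, h2⟩
    rw [prod_congr rfl e2, prod_fiberwise_of_maps_to (s := P.filter fun p => i ∈ T p)
      (t := univ.filter (fun S : Finset ι => i ∈ S)) (g := T) fun p hp =>
        mem_filter.2 ⟨mem_univ _, (mem_filter.1 hp).2⟩, ← e1]
    exact (Nat.prod_primeFactors_of_squarefree (hsf i)).symm
  · intro S hS
    have hne : (P.filter fun p => T p = S).Nonempty := by
      rw [nonempty_iff_ne_empty]
      intro h
      apply hS
      beta_reduce
      rw [h, prod_empty]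
    obtain ⟨p, hp⟩ := hne
    rw [mem_filter] at hp
    obtain ⟨hp1, hp2⟩ := hp
    have hpp := hPr p hp1
    constructor
    · rw [hP, Nat.mem_primeFactors] at hp1
      obtain ⟨i, -, hi⟩ := (hpp.prime.dvd_finsetProd_iff s).1 hp1.2.1
      exact ⟨i, by rw [← hp2, hTm]; exact hi⟩
    · obtain ⟨m, hm⟩ := hsq
      have hn0 : ∀ i ∈ (univ : Finset ι), n i ≠ 0 := fun i _ => by
        have := hn i
        omega
      have hm0 : m ≠ 0 := by
        intro h
        rw [h, mul_zero] at hm
        exact prod_ne_zero_iff.2 hn0 hm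
      have e1 : (∏ i, n i).factorization p = 2 * m.factorization p := by
        rw [hm, Nat.factorization_mul hm0 hm0]
        simp only [Finsupp.coe_add, Pi.add_apply]
        ring
      have e2 : (∏ i, n i).factorization p = ∑ i, (n i).factorization p := by
        rw [Nat.factorization_prod hn0, Finsupp.finsetSum_apply]
      have e3 : ∀ i, (n i).factorization p =
          2 * (r i).factorization p + if p ∣ s i then 1 else 0 := by
        intro i
        rw [← hrs i, Nat.factorization_mul (pow_ne_zero 2 (hr0 i)) (hs0 i),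
          Nat.factorization_pow, ← fac_sf (hsf i) hpp]
        simp
      have e4 : S.card = ∑ i, if p ∣ s i then 1 else 0 := by
        rw [← hp2, hT]
        exact card_filter _ _
      have e5 : ∑ i, (n i).factorization p = 2 * ∑ i, (r i).factorization p + S.card := by
        rw [e4, mul_sum, ← sum_add_distrib]
        exact sum_congr rfl fun i _ => e3 i
      rw [Nat.even_iff]
      omega

end Pool.Agent.Q193.L2
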